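import Mathlib
import Pool.Agent.Helper75.IP.Defs

/-!
# Independent powers: piece I3
-/

set_option autoImplicit false
open MeasureTheory Filter Topology ProbabilityTheory Helper35.AG
open scoped ENNReal

namespace Helper16.IP

open Helper75.IP

/-- a measure below another one of the same finite mass -/
theorem eq_of_le_of_mass {X : Type*} [MeasurableSpace X] {μ ν : Measure X} [IsFiniteMeasure ν]
    (h : μ ≤ ν) (h1 : ν Set.univ ≤ μ Set.univ) : μ = ν := by
  have : IsFiniteMeasure μ := isFiniteMeasure_of_le ν h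
  refine le_antisymm h (Measure.le_iff.2 fun s hs => ?_)
  have e1 := measure_add_measure_compl (μ := μ) hs
  have e2 := measure_add_measure_compl (μ := ν) hs
  have h2 : μ sᶜ ≤ ν sᶜ := h _
  have h3 : ν s + ν sᶜ ≤ μ s + ν sᶜ := by
    rw [e2]
    calc ν Set.univ ≤ μ Set.univ := h1
      _ = μ s + μ sᶜ := e1.symm
      _ ≤ μ s + ν sᶜ := by gcongr
  exact (ENNReal.add_le_add_iff_right (measure_ne_top ν _)).1 h3

theorem inf_map {X : Type*} [MeasurableSpace X] {α β : Measure X} [IsFiniteMeasure α]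
    {T : X → X} (hα : MeasurePreserving T α α) (hβ : MeasurePreserving T β β) :
    MeasurePreserving T (α ⊓ β) (α ⊓ β) := by
  refine ⟨hα.measurable, ?_⟩
  have : IsFiniteMeasure (α ⊓ β) := isFiniteMeasure_of_le α inf_le_left
  refine eq_of_le_of_mass (le_inf ?_ ?_) ?_
  · exact (Measure.map_mono inf_le_left hα.measurable).trans_eq hα.map_eq
  · exact (Measure.map_mono inf_le_right hβ.measurable).trans_eq hβ.map_eq
  · rw [Measure.map_apply hα.measurable MeasurableSet.univ, Set.preimage_univ]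

/-- **I3** two invariant measures which are not mutually singular -/
theorem common {α β : Measure Tor} [IsProbabilityMeasure α] [IsProbabilityMeasure β]
    (hα : Inv α) (hβ : Inv β) (h : ¬ Measure.MutuallySingular α β) :
    ∃ (ρ : Measure Tor) (c : ℝ≥0∞), IsProbabilityMeasure ρ ∧ Inv ρ ∧ c ≠ ⊤ ∧
      ρ ≤ c • α ∧ ρ ≤ c • β := by
  have hfin : IsFiniteMeasure (α ⊓ β) := isFiniteMeasure_of_le α inf_le_left
  have h0 : (α ⊓ β) Set.univ ≠ 0 := by
    rw [Measure.measure_univ_ne_zero]
    intro h0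
    rw [Measure.mutuallySingular_iff_disjoint, disjoint_iff, h0] at h
    exact h rfl
  have hc : ((α ⊓ β) Set.univ)⁻¹ ≠ ⊤ := ENNReal.inv_ne_top.2 h0
  refine ⟨((α ⊓ β) Set.univ)⁻¹ • (α ⊓ β), ((α ⊓ β) Set.univ)⁻¹, ⟨?_⟩, ⟨?_, ?_⟩, hc, ?_, ?_⟩
  · rw [Measure.smul_apply, smul_eq_mul]
    exact ENNReal.inv_mul_cancel h0 (measure_ne_top _ _)
  · exact (inf_map hα.two hβ.two).smul_measure _
  · exact (inf_map hα.three hβ.three).smul_measure _
  · gcongr
    exact inf_le_left
  · gcongr
    exact inf_le_right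

end Helper16.IP
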