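import Mathlib
import Pool.Agent.Helper75.IP.Defs

/-!
# Independent powers: pieces E4 and E5
-/

set_option autoImplicit false
open MeasureTheory Filter Topology ProbabilityTheory Helper35.AG
open scoped ENNReal

namespace Helper16.IP

open Helper75.IP

/-- the possible cells of `x + y` when the cell of `x` is `i` -/
def nbr' (K m i : ℕ) : Finset ℕ :=
  {(i + m) % 2 ^ K, (i + m + 1) % 2 ^ K}

theorem card_nbr' (K m i : ℕ) : (nbr' K m i).card ≤ 2 :=
  Finset.card_le_two

/-- Translation changes the entropy by at most `log 2`, the other direction. -/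
theorem ent_translate' (μ : Measure Tor) [IsProbabilityMeasure μ] (K : ℕ) (y : Tor) :
    ∑ i ∈ Finset.range (2 ^ K), Real.negMulLog (μ.real {x | idx K (x + y) = i}) ≤
      ent μ K + Real.log 2 := by
  have h := matrix_le (Finset.range (2 ^ K)) (Finset.range (2 ^ K))
    (fun i j => μ.real ({x | idx K x = i} ∩ {x | idx K (x + y) = j}))
    (fun i _ j _ => measureReal_nonneg) (fun i => nbr' K (idx K y) i)
    (fun i _ => card_nbr' K (idx K y) i)
    (fun i _ => by
      have h2 : 0 < 2 ^ K := by positivity
      intro j hj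
      unfold nbr' at hj
      rw [Finset.mem_insert, Finset.mem_singleton] at hj
      rw [Finset.mem_range]
      rcases hj with h | h <;> rw [h] <;> exact Nat.mod_lt _ h2)
    (fun i hi j hj hij => by
      have : ({x : Tor | idx K x = i} ∩ {x | idx K (x + y) = j}) = ∅ := by
        rw [Set.eq_empty_iff_forall_notMem]
        rintro x ⟨h1, h2⟩
        have h1' : idx K x = i := h1
        have h2' : idx K (x + y) = j := h2
        apply hij
        unfold nbr'
        rw [Finset.mem_insert, Finset.mem_singleton, ← h1', ← h2']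
        exact idx_add K x y
      show μ.real ({x : Tor | idx K x = i} ∩ {x | idx K (x + y) = j}) = 0
      rw [this]
      simp)
  have e1 : ∀ j ∈ Finset.range (2 ^ K), ∑ i ∈ Finset.range (2 ^ K),
      μ.real ({x | idx K x = i} ∩ {x | idx K (x + y) = j}) = μ.real {x | idx K (x + y) = j} :=
    fun j _ => sum_cell_inter μ K _ (measurableSet_shift K j y)
  have e2 : ∀ i ∈ Finset.range (2 ^ K), ∑ j ∈ Finset.range (2 ^ K),
      μ.real ({x | idx K x = i} ∩ {x | idx K (x + y) = j}) = μ.real {x | idx K x = i} :=
    fun i _ => sum_shift_inter μ K _ (measurableSet_idx K i) y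
  have h' : ∑ j ∈ Finset.range (2 ^ K), Real.negMulLog (μ.real {x | idx K (x + y) = j}) ≤
      ∑ i ∈ Finset.range (2 ^ K), Real.negMulLog (μ.real {x | idx K x = i}) +
        (∑ i ∈ Finset.range (2 ^ K), μ.real {x | idx K x = i}) * Real.log 2 := by
    refine le_trans (le_of_eq ?_) (h.trans (le_of_eq ?_))
    · exact Finset.sum_congr rfl fun j hj => by rw [e1 j hj]
    · congr 1
      · exact Finset.sum_congr rfl fun i hi => by rw [e2 i hi]
      · rw [Finset.sum_congr rfl e2]
  rw [sum_cells, one_mul] at h'
  exact h'

/-- the integrand of `en` is bounded -/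
theorem abs_sum_le (K : ℕ) (ρ : Measure Tor) [IsProbabilityMeasure ρ] (y : Tor) :
    ‖∑ i ∈ Finset.range (2 ^ K), Real.negMulLog (ρ.real {x | idx K (x + y) = i})‖ ≤ 2 ^ K := by
  refine (norm_sum_le _ _).trans ?_
  calc ∑ i ∈ Finset.range (2 ^ K), ‖Real.negMulLog (ρ.real {x | idx K (x + y) = i})‖
      ≤ ∑ _i ∈ Finset.range (2 ^ K), (1 : ℝ) := by
        refine Finset.sum_le_sum fun i _ => ?_
        have h0 : 0 ≤ ρ.real {x | idx K (x + y) = i} := measureReal_nonneg
        have h1 : ρ.real {x | idx K (x + y) = i} ≤ 1 := measureReal_le_one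
        rw [Real.norm_eq_abs, abs_of_nonneg (Real.negMulLog_nonneg h0 h1)]
        have := Real.negMulLog_le_one_sub_self h0
        linarith
    _ = 2 ^ K := by simp

theorem measurable_sum (K : ℕ) (ρ : Measure Tor) [IsProbabilityMeasure ρ] :
    Measurable fun y : Tor =>
      ∑ i ∈ Finset.range (2 ^ K), Real.negMulLog (ρ.real {x | idx K (x + y) = i}) :=
  Finset.measurable_sum _ fun i _ =>
    Real.continuous_negMulLog.measurable.comp (measurable_real ρ (measurableSet_idx K i))

theorem integrable_sum (K : ℕ) (ρ ν : Measure Tor) [IsProbabilityMeasure ρ] [IsFiniteMeasure ν] :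
    Integrable (fun y : Tor =>
      ∑ i ∈ Finset.range (2 ^ K), Real.negMulLog (ρ.real {x | idx K (x + y) = i})) ν :=
  Integrable.of_bound (measurable_sum K ρ).aestronglyMeasurable (2 ^ K)
    (Eventually.of_forall (abs_sum_le K ρ))

/-- **E4** -/
theorem en_le_ent (K : ℕ) (ρ : Measure Tor) [IsProbabilityMeasure ρ] :
    en K ρ ≤ ent ρ K + Real.log 2 := by
  unfold en
  have h := integral_mono (μ := (volume : Measure Tor)) (integrable_sum K ρ volume)
    (integrable_const (ent ρ K + Real.log 2)) (fun y => ent_translate' ρ K y)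
  have h1 : (volume : Measure Tor).real Set.univ = 1 := by
    rw [measureReal_def, AddCircle.measure_univ]
    simp
  rw [integral_const, h1, one_smul] at h
  exact h

/-- joint measurability of the mass of the shifted cells -/
theorem measurable_kernel_real (K i : ℕ) (κ : Kernel Tor Tor) [IsMarkovKernel κ] :
    Measurable fun p : Tor × Tor => (κ p.1).real {z | idx K (z + p.2) = i} := by
  have hs : MeasurableSet {q : (Tor × Tor) × Tor | idx K (q.2 + q.1.2) = i} :=
    (measurableSet_idx K i).preimage (by fun_prop)
  have h := Kernel.measurable_kernel_prodMk_left (κ := κ.comap Prod.fst measurable_fst) hs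
  exact h.ennreal_toReal

theorem bind_real (μ : Measure Tor) [IsProbabilityMeasure μ] (κ : Kernel Tor Tor)
    [IsMarkovKernel κ] {A : Set Tor} (hA : MeasurableSet A) :
    (μ.bind κ).real A = ∫ x, (κ x).real A ∂μ := by
  rw [measureReal_def, Measure.bind_apply hA κ.aemeasurable,
    integral_eq_lintegral_of_nonneg_ae (Eventually.of_forall fun x => measureReal_nonneg)
    (κ.measurable_coe hA).ennreal_toReal.aestronglyMeasurable]
  congr 1
  refine lintegral_congr fun x => ?_
  rw [measureReal_def, ENNReal.ofReal_toReal (measure_ne_top _ _)]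

/-- **E5** concavity -/
theorem en_bind (K : ℕ) (μ : Measure Tor) [IsProbabilityMeasure μ] (κ : Kernel Tor Tor)
    [IsMarkovKernel κ] : ∫ x, en K (κ x) ∂μ ≤ en K (μ.bind κ) := by
  have hm : Measurable fun p : Tor × Tor =>
      ∑ i ∈ Finset.range (2 ^ K), Real.negMulLog ((κ p.1).real {z | idx K (z + p.2) = i}) :=
    Finset.measurable_sum _ fun i _ =>
      Real.continuous_negMulLog.measurable.comp (measurable_kernel_real K i κ)
  have hint : Integrable (fun p : Tor × Tor =>
      ∑ i ∈ Finset.range (2 ^ K), Real.negMulLog ((κ p.1).real {z | idx K (z + p.2) = i}))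
      (μ.prod volume) :=
    Integrable.of_bound hm.aestronglyMeasurable (2 ^ K)
      (Eventually.of_forall fun p => abs_sum_le K (κ p.1) p.2)
  unfold en
  rw [integral_integral_swap hint]
  refine integral_mono hint.integral_prod_right (integrable_sum K (μ.bind κ) volume) fun y => ?_
  have hA : ∀ i, MeasurableSet {z : Tor | idx K (z + y) = i} := fun i => measurableSet_shift K i y
  have hmi : ∀ i, Measurable fun x => (κ x).real {z : Tor | idx K (z + y) = i} := fun i =>
    (κ.measurable_coe (hA i)).ennreal_toReal
  have hi1 : ∀ i, Integrable (fun x => (κ x).real {z : Tor | idx K (z + y) = i}) μ := fun i =>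
    Integrable.of_bound (hmi i).aestronglyMeasurable 1 (Eventually.of_forall fun x => by
      rw [Real.norm_eq_abs, abs_of_nonneg measureReal_nonneg]
      exact measureReal_le_one)
  have hi2 : ∀ i, Integrable
      (fun x => Real.negMulLog ((κ x).real {z : Tor | idx K (z + y) = i})) μ := fun i =>
    Integrable.of_bound (Real.continuous_negMulLog.measurable.comp (hmi i)).aestronglyMeasurable 1
      (Eventually.of_forall fun x => by
        have h0 : 0 ≤ (κ x).real {z : Tor | idx K (z + y) = i} := measureReal_nonneg
        have h1 : (κ x).real {z : Tor | idx K (z + y) = i} ≤ 1 := measureReal_le_one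
        rw [Real.norm_eq_abs, abs_of_nonneg (Real.negMulLog_nonneg h0 h1)]
        have := Real.negMulLog_le_one_sub_self h0
        linarith)
  show ∫ x, ∑ i ∈ Finset.range (2 ^ K), Real.negMulLog ((κ x).real {z | idx K (z + y) = i}) ∂μ ≤
    ∑ i ∈ Finset.range (2 ^ K), Real.negMulLog ((μ.bind κ).real {z | idx K (z + y) = i})
  rw [integral_finsetSum _ fun i _ => hi2 i]
  refine Finset.sum_le_sum fun i _ => ?_
  rw [bind_real μ κ (hA i)]
  exact Real.concaveOn_negMulLog.le_map_integral Real.continuous_negMulLog.continuousOn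
    isClosed_Ici (Eventually.of_forall fun x => measureReal_nonneg) (hi1 i) (hi2 i)

end Helper16.IP
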