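import Mathlib
import Pool.Agent.Helper75.IP.DefsG

/-!
# Independent powers: piece G3
-/

set_option autoImplicit false
open MeasureTheory Filter Topology ProbabilityTheory Helper35.AG
open scoped ENNReal

namespace Helper16.IP

open Helper75.IP

/-- the reflected cell away from the dyadic points -/
theorem idx_neg {K : ℕ} {z : Tor} (hz : z ∉ Set.range fun n : ℕ => ((n / 2 ^ K : ℝ) : Tor)) :
    idx K (-z) + idx K z + 1 = 2 ^ K := by
  obtain ⟨u, hu0, hu1, rfl, hu⟩ := exists_rep z
  have h2 : (0 : ℝ) < 2 ^ K := by positivity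
  have hn : ∀ n : ℕ, (2 : ℝ) ^ K * u ≠ n := fun n hn => hz ⟨n, by
    show ((n / 2 ^ K : ℝ) : Tor) = (u : Tor)
    rw [← hn, mul_div_cancel_left₀ u h2.ne']⟩
  have hu0' : 0 < u := by
    rcases hu0.lt_or_eq with h | h
    · exact h
    · exact absurd (by rw [← h]; simp) (hn 0)
  have hneg : (-(u : Tor)) = ((1 - u : ℝ) : Tor) := by
    rw [AddCircle.coe_sub]
    have : ((1 : ℝ) : Tor) = 0 := AddCircle.coe_period 1
    rw [this, zero_sub]
  rw [hneg, idx_coe K (by linarith) (by linarith), hu K]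
  set i := ⌊(2 : ℝ) ^ K * (1 - u)⌋₊ with hi
  set j := ⌊(2 : ℝ) ^ K * u⌋₊ with hj
  have a1 : (i : ℝ) ≤ 2 ^ K * (1 - u) := Nat.floor_le (by nlinarith)
  have a2 : (2 : ℝ) ^ K * (1 - u) < i + 1 := Nat.lt_floor_add_one _
  have b1 : (j : ℝ) ≤ 2 ^ K * u := Nat.floor_le (by positivity)
  have b2 : (2 : ℝ) ^ K * u < j + 1 := Nat.lt_floor_add_one _
  have b3 : (j : ℝ) < 2 ^ K * u := lt_of_le_of_ne b1 fun h => hn j h.symm
  have d1 : ((i + j : ℕ) : ℝ) < ((2 ^ K : ℕ) : ℝ) := by
    push_cast
    nlinarith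
  have d2 : ((2 ^ K : ℕ) : ℝ) < ((i + j + 2 : ℕ) : ℝ) := by
    push_cast
    nlinarith
  have e1 : i + j < 2 ^ K := by exact_mod_cast d1
  have e2 : 2 ^ K < i + j + 2 := by exact_mod_cast d2
  omega

theorem volume_null : NullSingletonClass (volume : Measure Tor) := by
  refine ⟨fun x => ?_⟩
  have h := AddCircle.volume_closedBall (T := (1 : ℝ)) (x := x) 0
  rw [Metric.closedBall_zero] at h
  rw [h]
  simp

/-- **G3** -/
theorem en_refl (K : ℕ) (ρ : Measure Tor) [IsProbabilityMeasure ρ] :
    en K (Helper75.IP.refl ρ) = en K ρ := by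
  have hnull := volume_null
  set D : Set Tor := Set.range fun n : ℕ => ((n / 2 ^ K : ℝ) : Tor) with hD
  have hDc : D.Countable := Set.countable_range _
  have hs : MeasurableSet {p : Tor × Tor | p.2 + p.1 ∈ D} :=
    hDc.measurableSet.preimage (by fun_prop)
  have h0 : ((volume : Measure Tor).prod ρ) {p : Tor × Tor | p.2 + p.1 ∈ D} = 0 := by
    rw [Measure.prod_apply_symm hs]
    refine (lintegral_congr fun x => ?_).trans lintegral_zero
    show (volume : Measure Tor) {y | x + y ∈ D} = 0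
    exact (hDc.preimage (add_right_injective x)).measure_zero _
  have hae : ∀ᵐ y ∂(volume : Measure Tor), ρ {x | x + y ∈ D} = 0 :=
    Measure.measure_ae_null_of_prod_null h0
  have key : ∀ᵐ y ∂(volume : Measure Tor),
      ∑ i ∈ Finset.range (2 ^ K), Real.negMulLog ((Helper75.IP.refl ρ).real {x | idx K (x + -y) = i}) =
        ∑ i ∈ Finset.range (2 ^ K), Real.negMulLog (ρ.real {x | idx K (x + y) = i}) := by
    filter_upwards [hae] with y hy
    rw [← Finset.sum_range_reflect]
    refine Finset.sum_congr rfl fun i hi => ?_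
    rw [Finset.mem_range] at hi
    congr 1
    have hm : MeasurableSet {x : Tor | idx K (x + -y) = 2 ^ K - 1 - i} :=
      (measurableSet_idx K _).preimage (by fun_prop)
    unfold Helper75.IP.refl
    rw [map_measureReal_apply measurable_neg hm]
    refine measureReal_congr ?_
    have hy' : ∀ᵐ x ∂ρ, x + y ∉ D := by
      rw [ae_iff]
      simpa using hy
    filter_upwards [hy'] with x hx
    have h1 : idx K (-x + -y) + idx K (x + y) + 1 = 2 ^ K := by
      have := idx_neg hx
      rwa [neg_add] at this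
    show ((fun x : Tor => -x) ⁻¹' {x | idx K (x + -y) = 2 ^ K - 1 - i}) x =
      ({x : Tor | idx K (x + y) = i} : Set Tor) x
    show (idx K (-x + -y) = 2 ^ K - 1 - i) = (idx K (x + y) = i)
    refine propext ⟨fun h => ?_, fun h => ?_⟩ <;> omega
  unfold en
  rw [← integral_neg_eq_self (fun y : Tor => ∑ i ∈ Finset.range (2 ^ K),
    Real.negMulLog ((Helper75.IP.refl ρ).real {x | idx K (x + y) = i}))]
  exact integral_congr_ae key

end Helper16.IP
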